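import Mathlib
import Pool.Agent.Lib.MP_6489b8_al.A.Final
import Pool.Agent.Lib.MP_6489b8_al.AF.Two

/-!
# The chain of varieties generated by free alternative algebras: every step is strict

For every commutative ring of operators `Φ` with `1 ≠ 0` and every `m ≥ 4` the variety
`Alt_m(Φ)` generated by the free alternative `Φ`-algebra on `m` generators is strictly contained
in `Alt_{m+1}(Φ)`.

If `2` is not nilpotent in `Φ`, the separating identities are alternating derivations over the
integers, evaluated in superalgebras over residue fields. If `2` is nilpotent, they are multiples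
of Artin forms (alternating functions of `n` arguments, `n` odd, with
`f(ab, …) = a f(b, …) + f(a, …) b + ∑ [x, f(a, b, …)]` modulo `2`), which vanish modulo `2` in the
alternative rings generated by `n - 1` elements, or of their brackets `∑ [x, f(…)]`, which vanish
modulo `2` in the alternative rings generated by `n` elements, evaluated in integral models.
-/

namespace Pool.Agent.Results.MP_6489b8_al.AllRings

universe u

/-- For every commutative ring of operators `Φ` with `1 ≠ 0` and every `m ≥ 4` the containment
`Alt_m(Φ) ⊂ Alt_{m+1}(Φ)` is strict. -/
theorem result (Φ : Type u) [CommRing Φ] [Nontrivial Φ] (m : ℕ) (hm : 4 ≤ m) :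
    MP6489b8.StrictStep Φ m := by
  by_cases h2 : IsNilpotent (2 : Φ)
  · exact MP6489b8.AF.strictStep_of_nilpotent Φ h2 m hm
  · exact MP6489b8.strictStep_of_two_not_nilpotent Φ h2 m hm

end Pool.Agent.Results.MP_6489b8_al.AllRings
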